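import Pool.Agent.Helper92.TN.GoalsH

/-!
# Packet TN-ACLB: algebraic independence and the closure operator `acl`
-/

set_option autoImplicit false

open MvPolynomial

namespace Pool.Agent.Helper69.TN.ACLB

open Pool.Agent.Helper92.TN

noncomputable section

variable {K Ω : Type} [Field K] [Field Ω] [Algebra K Ω]

lemma mem_acl (S : Set Ω) (z : Ω) :
    z ∈ acl K S ↔ IsAlgebraic (IntermediateField.adjoin K S) z := by
  unfold acl
  rw [IntermediateField.mem_restrictScalars, mem_algebraicClosure_iff]

lemma mem_acl' (S : Set Ω) (z : Ω) :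
    z ∈ acl K S ↔ IsAlgebraic (Algebra.adjoin K S) z := by
  rw [mem_acl, IntermediateField.isAlgebraic_adjoin_iff]

lemma acl_mono {S T : Set Ω} (h : S ⊆ T) : acl K S ≤ acl K T := by
  intro z hz
  rw [mem_acl] at hz ⊢
  obtain ⟨p, hp, hz⟩ := hz
  refine ⟨p.map (IntermediateField.inclusion (IntermediateField.adjoin.mono K S T h)).toRingHom,
    ?_, ?_⟩
  · exact (Polynomial.map_ne_zero_iff (RingHom.injective _)).2 hp
  · rw [Polynomial.aeval_def, Polynomial.eval₂_map]
    exact hz

theorem part1 (ι : Type) [Finite ι] (x : ι → Ω) : AlgebraicIndependent K x ↔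
      ∀ i, x i ∉ acl K (x '' {j | j ≠ i}) := by
  constructor
  · intro h i hi
    rw [mem_acl'] at hi
    exact h.transcendental_adjoin (s := {j | j ≠ i}) (i := i) (by simp) hi
  · intro h
    refine algebraicIndependent_of_finite_type' (algebraMap K Ω).injective ?_
    intro t _ _ i hi hcon
    refine h i (acl_mono (Set.image_mono ?_) ((mem_acl' _ _).2 hcon))
    intro j hj
    exact fun he => hi (he ▸ hj)

theorem part2 (ι : Type) [Fintype ι] (x : ι → Ω) (T : Finset Ω) (hx : AlgebraicIndependent K x)
    (h : ∀ i, x i ∈ acl K (T : Set Ω)) : Fintype.card ι ≤ T.card := by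
  have h1 : (AlgebraicIndependent.matroid K Ω).Indep (Set.range x) := by
    rw [AlgebraicIndependent.matroid_indep_iff]
    exact hx.coe_range
  have h2 : Set.range x ⊆ (AlgebraicIndependent.matroid K Ω).closure (T : Set Ω) := by
    rw [AlgebraicIndependent.matroid_closure_eq]
    rintro _ ⟨i, rfl⟩
    have := (mem_acl' _ _).1 (h i)
    exact this
  have h3 : (Set.range x).encard ≤ (T : Set Ω).encard := by
    rw [← h1.eRk_eq_encard]
    refine ((AlgebraicIndependent.matroid K Ω).eRk_mono h2).trans ?_
    rw [Matroid.eRk_closure_eq]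
    exact Matroid.eRk_le_encard _ _
  rw [← Set.image_univ, hx.injective.encard_image, Set.encard_coe_eq_coe_finsetCard,
    Set.encard_univ, ENat.card_eq_coe_fintype_card] at h3
  exact_mod_cast h3

lemma indep_closure {F E : Type} [Field F] [Field E] [Algebra F E] {κ : Type} (y : κ → E) :
    AlgebraicIndependent F y ↔ AlgebraicIndependent (algebraicClosure F E) y :=
  Algebra.IsAlgebraic.algebraicIndependent_iff F (algebraicClosure F E)

theorem part3 (ι ι' : Type) (x : ι → Ω) (y : ι' → Ω) :
      AlgebraicIndependent K (Sum.elim x y) ↔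
        AlgebraicIndependent K x ∧ AlgebraicIndependent (acl K (Set.range x)) y := by
  have h1 : AlgebraicIndependent K (Sum.elim x y) ↔ AlgebraicIndependent K (Sum.elim y x) := by
    refine algebraicIndependent_equiv' (Equiv.sumComm ι ι') ?_
    ext a
    rcases a with a | a <;> rfl
  rw [h1, AlgebraicIndependent.sumElim_iff]
  refine and_congr_right fun _ => ?_
  rw [← IntermediateField.algebraicIndependent_adjoin_iff]
  exact indep_closure y

theorem part4 (ι : Type) (x : ι → Ω) (h : AlgebraicIndependent K x) :
      AlgebraicIndependent (acl K (∅ : Set Ω)) x := by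
  have h1 := (part3 Empty ι (Empty.elim : Empty → Ω) x).1 (by
    refine (algebraicIndependent_equiv' (Equiv.emptySum Empty ι) ?_).2 h
    ext a
    rcases a with a | a
    · exact a.elim
    · rfl)
  have h2 : Set.range (Empty.elim : Empty → Ω) = ∅ := Set.range_eq_empty _
  rw [h2] at h1
  exact h1.2

/-- **ACLB**. -/
theorem t : ACLB := by
  intro K Ω _ _ _
  exact ⟨fun ι _ x => part1 ι x, fun ι _ x T hx h => part2 ι x T hx h,
    fun ι ι' _ _ x y => part3 ι ι' x y, fun ι _ x h => part4 ι x h⟩

end

end Pool.Agent.Helper69.TN.ACLB
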